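import Pool.Agent.N329.SD.Stm

set_option autoImplicit false

/-! SD/CLC: three computable sets (helper11). -/

namespace Pool.Agent.N11.SD

open Pool.Agent.N329.SD

lemma prim_dl : Primrec dl := Primrec.ofNat (List ℕ)

lemma prim_l : Primrec (fun n : ℕ => n.unpair.1) := Primrec.fst.comp Primrec.unpair

lemma prim_r : Primrec (fun n : ℕ => n.unpair.2) := Primrec.snd.comp Primrec.unpair

lemma dl_el (s : List ℕ) : dl (el s) = s := Denumerable.ofNat_encode s

lemma getD_pre (x : ℕ → ℕ) (i : ℕ) : (pre x (i + 1)).getD i 0 = x i := by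
  unfold pre
  rw [List.getD_eq_getElem _ _ (by simp)]
  simp

theorem clc_ : S_CLC := by
  intro C hC
  refine ⟨?_, ?_, ?_⟩
  · -- the order
    have h1 : PrimrecPred (fun n : ℕ => dl n.unpair.1 =
        (dl n.unpair.2).take (dl n.unpair.1).length) :=
      Primrec.eq.comp (prim_dl.comp prim_l)
        (Primrec.list_take.comp (Primrec.list_length.comp (prim_dl.comp prim_l))
          (prim_dl.comp prim_r))
    have h2 := hC.comp _ h1.computablePred
    convert h2 using 1
    ext n
    exact List.prefix_iff_eq_take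
  · intro x y hS
    have h1 : PrimrecPred (fun n : ℕ => (dl n.unpair.2.unpair.1).getD n.unpair.1 0 % 2 = 1) :=
      Primrec.eq.comp (Primrec.nat_mod.comp ((Primrec.list_getD 0).comp
        (prim_dl.comp (prim_l.comp prim_r)) prim_l) (Primrec.const 2)) (Primrec.const 1)
    have h2 := hC.ex _ (hC.inter _ _ hS (hC.comp _ h1.computablePred))
    convert h2 using 1
    ext i
    have key : (dl (ip x y i).unpair.1).getD i 0 = x i := by
      unfold ip
      rw [Nat.unpair_pair, dl_el]
      exact getD_pre x i
    constructor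
    · intro hi
      refine ⟨ip x y i, ⟨i, rfl⟩, ?_⟩
      change (dl (Nat.pair i (ip x y i)).unpair.2.unpair.1).getD (Nat.pair i (ip x y i)).unpair.1 0
        % 2 = 1
      rw [Nat.unpair_pair]
      change (dl (ip x y i).unpair.1).getD i 0 % 2 = 1
      rw [key]
      exact hi
    · rintro ⟨m, ⟨k, hk⟩, hm⟩
      have hk' := congrArg Nat.unpair hk
      rw [Nat.unpair_pair, Nat.unpair_pair, Prod.mk.injEq] at hk'
      obtain ⟨rfl, rfl⟩ := hk'
      change (dl (Nat.pair i (ip x y i)).unpair.2.unpair.1).getD (Nat.pair i (ip x y i)).unpair.1 0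
        % 2 = 1 at hm
      rw [Nat.unpair_pair] at hm
      change (dl (ip x y i).unpair.1).getD i 0 % 2 = 1 at hm
      rw [key] at hm
      exact hm
  · have pk : Primrec (fun n : ℕ => n.unpair.2.unpair.1 + 1) := Primrec.succ.comp (prim_l.comp prim_r)
    have h1 : PrimrecPred (fun n : ℕ => n.unpair.2.unpair.1 + 1 ≤ (dl n.unpair.1).length) :=
      Primrec.nat_le.comp pk (Primrec.list_length.comp (prim_dl.comp prim_l))
    have h2 : PrimrecPred (fun n : ℕ => dl n.unpair.2.unpair.2.unpair.1 =
        (dl n.unpair.1).take (n.unpair.2.unpair.1 + 1)) :=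
      Primrec.eq.comp (prim_dl.comp (prim_l.comp (prim_r.comp prim_r)))
        (Primrec.list_take.comp pk (prim_dl.comp prim_l))
    have h3 := hC.inter _ _ (hC.comp _ h1.computablePred) (hC.comp _ h2.computablePred)
    convert h3 using 1
    ext n
    constructor
    · rintro ⟨q, k, m, rfl, h4, h5⟩
      constructor
      · change (Nat.pair q (Nat.pair k m)).unpair.2.unpair.1 + 1 ≤
          (dl (Nat.pair q (Nat.pair k m)).unpair.1).length
        rw [Nat.unpair_pair]
        change (Nat.pair k m).unpair.1 + 1 ≤ (dl q).length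
        rw [Nat.unpair_pair]
        exact h4
      · change dl (Nat.pair q (Nat.pair k m)).unpair.2.unpair.2.unpair.1 =
          (dl (Nat.pair q (Nat.pair k m)).unpair.1).take
            ((Nat.pair q (Nat.pair k m)).unpair.2.unpair.1 + 1)
        rw [Nat.unpair_pair]
        change dl (Nat.pair k m).unpair.2.unpair.1 = (dl q).take ((Nat.pair k m).unpair.1 + 1)
        rw [Nat.unpair_pair]
        exact h5
    · rintro ⟨h4, h5⟩
      refine ⟨n.unpair.1, n.unpair.2.unpair.1, n.unpair.2.unpair.2, ?_, h4, h5⟩
      rw [Nat.pair_unpair, Nat.pair_unpair]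

end Pool.Agent.N11.SD
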